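import Pool.Agent.Helper58.Nivat.Full

/-!
# MP_06b25c_co: low complexity with respect to one convex window forces periodicity

The conjecture of Sander and Tijdeman (Nivat's conjecture for convex windows), in the words of
the problem file and for arbitrary alphabets (finite or not).
-/

set_option autoImplicit false

universe u

namespace Pool.Agent.Results.MP_06b25c_co.ConvexWindows

/-- The `D`-pattern of the configuration `c` at `v`: the map `D → A`, `d ↦ c (v + d)`. -/
def pattern {A : Type u} (c : ℤ × ℤ → A) (D : Set (ℤ × ℤ)) (v : ℤ × ℤ) : D → A :=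
  fun d => c (v + d)

/-- The `D`-complexity: the number (finite or infinite) of distinct `D`-patterns of `c`. -/
noncomputable def complexity {A : Type u} (c : ℤ × ℤ → A) (D : Set (ℤ × ℤ)) : ℕ∞ :=
  (Set.range (pattern c D)).encard

/-- A convex window: a finite set of the form `K ∩ ℤ^2` with `K ⊆ ℝ^2` convex. -/
def IsConvexWindow (D : Set (ℤ × ℤ)) : Prop :=
  D.Finite ∧ ∃ K : Set (ℝ × ℝ), Convex ℝ K ∧ D = {z : ℤ × ℤ | ((z.1 : ℝ), (z.2 : ℝ)) ∈ K}

/-- The configuration has a nonzero period vector. -/
def IsOnePeriodic {A : Type u} (c : ℤ × ℤ → A) : Prop :=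
  ∃ v : ℤ × ℤ, v ≠ 0 ∧ ∀ x : ℤ × ℤ, c (x + v) = c x

/-- For every alphabet `A`, every finite convex window `D` and every configuration
`c : ℤ^2 → A` with at most `|D|` distinct `D`-patterns, `c` is `1`-periodic. -/
theorem result (A : Type u) (D : Set (ℤ × ℤ)) (hD : IsConvexWindow D) (c : ℤ × ℤ → A)
    (hc : complexity c D ≤ D.encard) : IsOnePeriodic c := by
  classical
  obtain ⟨hfin, K, hK, hDK⟩ := hD
  have hfinR : (Set.range (pattern c D)).Finite := by
    have h1 : (Set.range (pattern c D)).encard < ⊤ :=
      lt_of_le_of_lt hc hfin.encard_lt_top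
    exact Set.encard_lt_top_iff.mp h1
  rcases D.eq_empty_or_nonempty with hE | ⟨d0, hd0⟩
  · exfalso
    have h1 : (Set.range (pattern c D)).encard ≤ 0 := by
      have h2 := hc
      unfold complexity at h2
      have h3 : D.encard = 0 := by rw [hE]; exact Set.encard_empty
      rwa [h3] at h2
    have h4 : (Set.range (pattern c D)) = ∅ := Set.encard_eq_zero.mp (le_antisymm h1 bot_le)
    exact (Set.range_nonempty (pattern c D)).ne_empty h4
  · -- only finitely many letters occur
    have hA : (Set.range c).Finite := by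
      refine (hfinR.image (fun φ => φ ⟨d0, hd0⟩)).subset ?_
      rintro a ⟨x, rfl⟩
      refine ⟨pattern c D (x - d0), ⟨x - d0, rfl⟩, ?_⟩
      show c (x - d0 + d0) = c x
      rw [sub_add_cancel]
    have : Finite (Set.range c) := hA
    let c' : ℤ × ℤ → Set.range c := fun x => ⟨c x, x, rfl⟩
    let D' : Finset (ℤ × ℤ) := hfin.toFinset
    have hmem : ∀ d : D, (d : ℤ × ℤ) ∈ D' := fun d => hfin.mem_toFinset.mpr d.2
    have hcard : (D'.card : ℕ∞) = D.encard := by
      rw [hfin.encard_eq_coe_toFinset_card]
    have hlow : (Pool.Agent.Helper58.Nivat.patSet c' D').ncard ≤ D'.card := by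
      have h1 : (Pool.Agent.Helper58.Nivat.patSet c' D').ncard
          ≤ (Set.range (pattern c D)).ncard := by
        refine Set.ncard_le_ncard_of_injOn
          (fun φ : D' → Set.range c => fun d : D => ((φ ⟨d, hmem d⟩ : Set.range c) : A)) ?_ ?_ hfinR
        · rintro φ ⟨t, rfl⟩
          exact ⟨t, rfl⟩
        · intro φ _ ψ _ h
          funext d
          apply Subtype.ext
          have hd : (d : ℤ × ℤ) ∈ D := hfin.mem_toFinset.mp d.2
          exact congrFun h ⟨d, hd⟩
      have h2 : ((Set.range (pattern c D)).ncard : ℕ∞) ≤ (D'.card : ℕ∞) := by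
        rw [hfinR.cast_ncard_eq, hcard]
        exact hc
      exact h1.trans (by exact_mod_cast h2)
    have hconv : Pool.Agent.Helper58.Nivat.LatConvex D' := by
      refine ⟨K, hK, fun z => ?_⟩
      rw [hfin.mem_toFinset, hDK]
      rfl
    obtain ⟨v, hv, hper⟩ := Pool.Agent.Helper58.Nivat.nivat c' D' hconv hlow
    exact ⟨v, hv, fun x => congrArg Subtype.val (hper x)⟩

end Pool.Agent.Results.MP_06b25c_co.ConvexWindows
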